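import Pool.Agent.VRing23.Regular

/-!
# Elements of small rank in right primitive right V-rings

Let `U` be a ring, `S` a faithful simple injective right `U`-module and `K` its endomorphism
division ring.  If `g` carries a ladder, then `dim_K (S g)` is at least the cardinality of
`ℕ → K`.
-/

open MulOpposite Pool.Agent.VRing Cardinal Pool.Agent.VRing23

namespace Pool.Agent.VRing6

universe u

section Rank

variable {U : Type u} [Ring U] (S : Type u) [AddCommGroup S] [Module Uᵐᵒᵖ S]

/-- The `K`-subspace `S g` of `S`, `K` the endomorphism ring of the right module `S`. -/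
noncomputable def img (g : U) : Submodule (Module.End Uᵐᵒᵖ S) S :=
  Submodule.span (Module.End Uᵐᵒᵖ S) (Set.range fun s : S => op g • s)

/-- right multiplication by `r`, as a linear map over the endomorphism ring -/
def rmul (r : U) : S →ₗ[Module.End Uᵐᵒᵖ S] S where
  toFun s := op r • s
  map_add' := smul_add _
  map_smul' k s := by
    change op r • (k s) = k (op r • s)
    rw [map_smul]

variable {S}

lemma img_add (a b : U) : img S (a + b) ≤ img S a ⊔ img S b := by
  refine Submodule.span_le.mpr ?_
  rintro _ ⟨s, rfl⟩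
  change op (a + b) • s ∈ _
  rw [op_add, add_smul]
  exact Submodule.add_mem_sup (Submodule.subset_span ⟨s, rfl⟩) (Submodule.subset_span ⟨s, rfl⟩)

lemma img_mul_left (r a : U) : img S (r * a) ≤ img S a := by
  refine Submodule.span_le.mpr ?_
  rintro _ ⟨s, rfl⟩
  change op (r * a) • s ∈ _
  rw [op_mul, mul_smul]
  exact Submodule.subset_span ⟨op r • s, rfl⟩

lemma img_mul_right (a r : U) : img S (a * r) ≤ (img S a).map (rmul S r) := by
  refine Submodule.span_le.mpr ?_
  rintro _ ⟨s, rfl⟩
  refine ⟨op a • s, Submodule.subset_span ⟨s, rfl⟩, ?_⟩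
  change op r • op a • s = op (a * r) • s
  rw [op_mul, mul_smul]

lemma coe_img (g : U) : (img S g : Set S) = Set.range fun s : S => op g • s := by
  apply Set.Subset.antisymm
  · have hle : img S g ≤ LinearMap.range (rmul S g) := by
      refine Submodule.span_le.mpr ?_
      rintro _ ⟨s, rfl⟩
      exact ⟨s, rfl⟩
    intro v hv
    obtain ⟨s, hs⟩ := hle hv
    exact ⟨s, hs⟩
  · exact Submodule.subset_span

lemma img_zero : img S (0 : U) = ⊥ := by
  rw [eq_bot_iff]
  refine Submodule.span_le.mpr ?_
  rintro _ ⟨s, rfl⟩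
  change op (0 : U) • s ∈ _
  simp

lemma img_neg (a : U) : img S (-a) ≤ img S a := by
  have : -a = -1 * a := by simp
  rw [this]
  exact img_mul_left _ _

/-- Extension of a compatible family of values. -/
lemma exists_ext (hinj : Module.Injective Uᵐᵒᵖ S) (y : ℕ → U) (z : ℕ → S)
    (h : ∀ r : ℕ →₀ Uᵐᵒᵖ, r.sum (fun n c => c • y n) = 0 → r.sum (fun n c => c • z n) = 0) :
    ∃ t : S, ∀ n, op (y n) • t = z n := by
  let p : (ℕ →₀ Uᵐᵒᵖ) →ₗ[Uᵐᵒᵖ] U := Finsupp.linearCombination Uᵐᵒᵖ y
  let q : (ℕ →₀ Uᵐᵒᵖ) →ₗ[Uᵐᵒᵖ] S := Finsupp.linearCombination Uᵐᵒᵖ z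
  have hpq : LinearMap.ker p ≤ LinearMap.ker q := by
    intro r hr
    rw [LinearMap.mem_ker] at hr ⊢
    exact h r (by simpa [p, Finsupp.linearCombination_apply] using hr)
  have hi : Function.Injective ((LinearMap.ker p).liftQ p le_rfl) := by
    rw [← LinearMap.ker_eq_bot]
    exact Submodule.ker_liftQ_eq_bot _ _ _ le_rfl
  obtain ⟨k, hk⟩ := hinj.out ((LinearMap.ker p).liftQ p le_rfl) hi
    ((LinearMap.ker p).liftQ q hpq)
  refine ⟨k 1, fun n => ?_⟩
  have h1 := hk ((LinearMap.ker p).mkQ (Finsupp.single n 1))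
  rw [Submodule.mkQ_apply, Submodule.liftQ_apply, Submodule.liftQ_apply] at h1
  have h2 : p (Finsupp.single n 1) = y n := by simp [p]
  have h3 : q (Finsupp.single n 1) = z n := by simp [q]
  rw [h2, h3] at h1
  rw [← map_smul, ← h1]
  congr 1
  change 1 * y n = y n
  rw [one_mul]

/-- A space containing `ℕ → K` has dimension equal to its cardinality. -/
lemma rank_eq_card {K : Type u} [DivisionRing K] {V : Type u} [AddCommGroup V] [Module K V]
    (i : (ℕ → K) →ₗ[K] V) (hi : Function.Injective i) : Module.rank K V = #V := by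
  obtain ⟨⟨ιK, bK⟩⟩ := Module.Free.exists_basis (R := K) (M := V)
  have key := (max_aleph0_card_le_rank_fun_nat K).trans (LinearMap.rank_le_of_injective i hi)
  rw [max_le_iff] at key
  have : Infinite ιK := by
    rw [← aleph0_le_mk_iff, bK.mk_eq_rank'']
    exact key.1
  rw [bK.repr.toEquiv.cardinal_eq, mk_finsupp_of_infinite, bK.mk_eq_rank'', max_eq_left]
  exact key.2

/-- The rank inequality. -/
theorem card_le_rank [IsSimpleModule Uᵐᵒᵖ S] (hinj : Module.Injective Uᵐᵒᵖ S)
    (hf : ∀ r : Uᵐᵒᵖ, (∀ m : S, r • m = 0) → r = 0) (g : U) (hg : Stair g) :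
    ∃ d : U, d ≠ 0 ∧ #(ℕ → img S d) ≤ Module.rank (Module.End Uᵐᵒᵖ S) (img S g) := by
  classical
  obtain ⟨x, w, h1, h2, h3⟩ := hg
  choose r hr using h1
  let K := Module.End Uᵐᵒᵖ S
  -- sections
  have hsec : ∀ n, ∃ σ : img S (x n * w n) →ₗ[K] S, ∀ v, op (x n * w n) • σ v = (v : S) := by
    intro n
    let p : S →ₗ[K] img S (x n * w n) :=
      (rmul S (x n * w n)).codRestrict _ fun s => Submodule.subset_span ⟨s, rfl⟩
    have hp : Function.Surjective p := by
      rintro ⟨v, hv⟩
      have hle : img S (x n * w n) ≤ LinearMap.range (rmul S (x n * w n)) := by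
        refine Submodule.span_le.mpr ?_
        rintro _ ⟨s, rfl⟩
        exact ⟨s, rfl⟩
      obtain ⟨s, hs⟩ := hle hv
      exact ⟨s, Subtype.ext hs⟩
    obtain ⟨σ, hσ⟩ := p.exists_rightInverse_of_surjective (LinearMap.range_eq_top.mpr hp)
    refine ⟨σ, fun v => ?_⟩
    have := congrArg (fun z => ((z v : img S (x n * w n)) : S)) hσ
    exact this
  choose σ hσ using hsec
  let κ : (∀ n, img S (x n * w n)) →ₗ[K] (ℕ → S) :=
    { toFun := fun l n => ∑ m ∈ Finset.range (n + 1), op (x m * w n) • σ m (l m)
      map_add' := by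
        intro a b
        funext n
        simp only [Pi.add_apply, map_add, smul_add, Finset.sum_add_distrib]
      map_smul' := by
        intro c a
        funext n
        simp only [Pi.smul_apply, map_smul, Finset.smul_sum, RingHom.id_apply]
        refine Finset.sum_congr rfl fun m _ => ?_
        exact (map_smul c (op (x m * w n)) _).symm }
  have hκ : ∀ l n, κ l n = ∑ m ∈ Finset.range (n + 1), op (x m * w n) • σ m (l m) :=
    fun _ _ => rfl
  have hκi : Function.Injective κ := by
    rw [← LinearMap.ker_eq_bot, eq_bot_iff]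
    intro l hl
    rw [LinearMap.mem_ker] at hl
    rw [Submodule.mem_bot]
    funext n
    induction n using Nat.strong_induction_on with
    | _ n ih =>
      have h4 := congrFun hl n
      rw [hκ, Finset.sum_range_succ, Finset.sum_eq_zero, zero_add, Pi.zero_apply, hσ] at h4
      · exact Subtype.ext h4
      · intro m hm
        rw [ih m (Finset.mem_range.mp hm)]
        simp
  let ρ : img S g →ₗ[K] (ℕ → S) :=
    (LinearMap.pi fun n => rmul S (w n)).comp (img S g).subtype
  have hρ : LinearMap.range κ ≤ LinearMap.range ρ := by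
    rintro _ ⟨l, rfl⟩
    obtain ⟨t, ht⟩ := exists_ext hinj (fun n => g * w n) (κ l) (by
      intro c hc
      -- choose a common bound
      obtain ⟨N, hN⟩ : ∃ N, ∀ n ∈ c.support, n < N :=
        ⟨c.support.sup id + 1, fun n hn => Nat.lt_succ_of_le (Finset.le_sup (f := id) hn)⟩
      have e1 : ∀ n ∈ c.support, κ l n =
          ∑ m ∈ Finset.range N, op (x m * w n) • σ m (l m) := by
        intro n hn
        rw [hκ]
        refine Finset.sum_subset ?_ ?_
        · intro m hm
          have := hN n hn
          rw [Finset.mem_range] at hm ⊢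
          omega
        · intro m _ hm
          rw [Finset.mem_range] at hm
          rw [h3 m n (by omega)]
          simp
      rw [Finsupp.sum]
      calc ∑ n ∈ c.support, c n • κ l n
          = ∑ n ∈ c.support, ∑ m ∈ Finset.range N, c n • (op (x m * w n) • σ m (l m)) := by
            refine Finset.sum_congr rfl fun n hn => ?_
            rw [e1 n hn, Finset.smul_sum]
        _ = ∑ m ∈ Finset.range N, ∑ n ∈ c.support, c n • (op (x m * w n) • σ m (l m)) :=
            Finset.sum_comm
        _ = ∑ m ∈ Finset.range N, (0 : S) := by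
            refine Finset.sum_congr rfl fun m _ => ?_
            have e2 : ∑ n ∈ c.support, c n • (op (x m * w n) • σ m (l m)) =
                op (r m * (c.sum fun n d => d • (g * w n))) • σ m (l m) := by
              rw [Finsupp.sum, Finset.mul_sum, Finset.op_sum, Finset.sum_smul]
              refine Finset.sum_congr rfl fun n _ => ?_
              have e5 : c n * op (x m * w n) = op (r m * c n • (g * w n)) := by
                rw [hr m]
                apply unop_injective
                change r m * g * w n * (c n).unop = r m * (g * w n * (c n).unop)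
                simp only [mul_assoc]
              rw [smul_smul, e5]
            rw [e2, hc, mul_zero, op_zero, zero_smul]
        _ = 0 := by simp)
    refine ⟨⟨op g • t, Submodule.subset_span ⟨t, rfl⟩⟩, ?_⟩
    funext n
    change op (w n) • (op g • t) = κ l n
    rw [← ht n, op_mul, mul_smul]
  -- the dimension of the product
  have hs : ∀ n, ∃ v : img S (x n * w n), v ≠ 0 := by
    intro n
    by_contra hcon
    push Not at hcon
    refine h2 n (op_injective (hf _ fun s => ?_))
    have := hcon ⟨op (x n * w n) • s, Submodule.subset_span ⟨s, rfl⟩⟩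
    exact congrArg Subtype.val this
  choose v hv using hs
  let i : (ℕ → K) →ₗ[K] (∀ n, img S (x n * w n)) :=
    { toFun := fun l n => l n • v n
      map_add' := fun a b => by funext n; simp [add_smul]
      map_smul' := fun a b => by funext n; simp [mul_smul] }
  have hi : Function.Injective i := by
    rw [← LinearMap.ker_eq_bot, eq_bot_iff]
    intro l hl
    rw [LinearMap.mem_ker] at hl
    rw [Submodule.mem_bot]
    funext n
    exact (smul_eq_zero.mp (congrFun hl n)).resolve_right (hv n)
  have e3 : Module.rank K (∀ n, img S (x n * w n)) = #(∀ n, img S (x n * w n)) :=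
    rank_eq_card i hi
  have e4 : #(∀ n, img S (x n * w n)) ≤ Module.rank K (img S g) := by
    rw [← e3, ← rank_range_of_injective κ hκi]
    exact (Submodule.rank_mono hρ).trans (rank_range_le ρ)
  -- the smallest factor
  obtain ⟨n₀, hn₀⟩ : ∃ n₀, ∀ n, #(img S (x n₀ * w n₀)) ≤ #(img S (x n * w n)) := by
    have hne : (Set.range fun n => #(img S (x n * w n))).Nonempty := ⟨_, 0, rfl⟩
    obtain ⟨n₀, hn₀⟩ := csInf_mem hne
    exact ⟨n₀, fun n => hn₀.trans_le (csInf_le' ⟨n, rfl⟩)⟩
  refine ⟨x n₀ * w n₀, h2 n₀, le_trans ?_ e4⟩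
  rw [mk_pi, mk_pi]
  exact prod_le_prod _ _ hn₀

end Rank

/-- `U` has a faithful simple injective right module on which some nonzero element has small
rank. -/
def SmallRank (U : Type u) [Ring U] : Prop :=
  ∃ (S : Type u) (_ : AddCommGroup S) (_ : Module Uᵐᵒᵖ S),
    IsSimpleModule Uᵐᵒᵖ S ∧ Module.Injective Uᵐᵒᵖ S ∧
    (∀ r : Uᵐᵒᵖ, (∀ m : S, r • m = 0) → r = 0) ∧
    ∃ g : U, g ≠ 0 ∧ ∀ d : U, d ≠ 0 → Module.rank (Module.End Uᵐᵒᵖ S)
      (Submodule.span (Module.End Uᵐᵒᵖ S) (Set.range fun s : S => op g • s)) <
        #(ℕ → Set.range fun s : S => op d • s)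

theorem goodFactor_of_smallRank {U : Type u} [Ring U] (h : SmallRank U) : GoodFactor U := by
  classical
  obtain ⟨S, _, _, hS, hinj, hf, g, hg0, hg'⟩ := h
  have hg : ∀ d : U, d ≠ 0 →
      Module.rank (Module.End Uᵐᵒᵖ S) (img S g) < #(ℕ → img S d) := by
    intro d hd
    have h1 : #(ℕ → img S d) = #(ℕ → Set.range fun s : S => op d • s) := by
      rw [← coe_img d]
      rfl
    rw [h1]
    exact hg' d hd
  have hinf : ∀ d : U, d ≠ 0 → ℵ₀ ≤ #(ℕ → img S d) := by
    intro d hd
    have hex : ∃ s : S, op d • s ≠ 0 := by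
      by_contra hcon
      push Not at hcon
      exact hd (op_injective (by simpa using hf _ hcon))
    obtain ⟨s, hs⟩ := hex
    have : Nontrivial (img S d) :=
      ⟨⟨⟨op d • s, Submodule.subset_span ⟨s, rfl⟩⟩, 0, fun h => hs (congrArg Subtype.val h)⟩⟩
    rw [← Cardinal.infinite_iff]
    infer_instance
  let H : TwoSidedIdeal U := TwoSidedIdeal.mk'
    {c | ∀ d : U, d ≠ 0 → Module.rank (Module.End Uᵐᵒᵖ S) (img S c) < #(ℕ → img S d)}
    (by
      intro d hd
      rw [img_zero, rank_bot]
      exact Cardinal.aleph0_pos.trans_le (hinf d hd))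
    (by
      intro a b ha hb d hd
      refine ((Submodule.rank_mono (img_add a b)).trans
        (Submodule.rank_add_le_rank_add_rank _ _)).trans_lt ?_
      exact Cardinal.add_lt_of_lt (hinf d hd) (ha d hd) (hb d hd))
    (by
      intro a ha d hd
      exact (Submodule.rank_mono (img_neg a)).trans_lt (ha d hd))
    (by
      intro r a ha d hd
      exact (Submodule.rank_mono (img_mul_left r a)).trans_lt (ha d hd))
    (by
      intro a r ha d hd
      exact ((Submodule.rank_mono (img_mul_right a r)).trans (rank_map_le _ _)).trans_lt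
        (ha d hd))
  refine ⟨H, ?_, fun c hc hst => ?_⟩
  · intro h0
    have : g ∈ H := by
      rw [TwoSidedIdeal.mem_mk']
      exact hg
    rw [h0, TwoSidedIdeal.mem_bot] at this
    exact hg0 this
  · rw [TwoSidedIdeal.mem_mk'] at hc
    obtain ⟨d, hd, h5⟩ := card_le_rank hinj hf c hst
    exact absurd h5 (not_le_of_gt (hc d hd))

/-- Factor rings of right V-rings are right V-rings. -/
theorem rightV_of_surjective {R U : Type u} [Ring R] [Ring U] (f : R →+* U)
    (hf : Function.Surjective f) (hV : RightV R) : RightV U := by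
  intro M _ _ hM
  let _ : Module Rᵐᵒᵖ M := Module.compHom M f.op
  have hsop : Function.Surjective f.op := by
    intro s
    obtain ⟨r, hr⟩ := hf s.unop
    exact ⟨op r, by simp [hr]⟩
  have _ : RingHomSurjective f.op := ⟨hsop⟩
  let l : M →ₛₗ[f.op] M :=
    { toFun := fun m => m
      map_add' := fun _ _ => rfl
      map_smul' := fun _ _ => rfl }
  have hMR : IsSimpleModule Rᵐᵒᵖ M :=
    (LinearMap.isSimpleModule_iff_of_bijective l Function.bijective_id).mpr hM
  have hinj := hV M hMR
  refine ⟨fun X Y _ _ _ _ i hi g => ?_⟩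
  let _ : Module Rᵐᵒᵖ X := Module.compHom X f.op
  let _ : Module Rᵐᵒᵖ Y := Module.compHom Y f.op
  let i' : X →ₗ[Rᵐᵒᵖ] Y :=
    { toFun := i
      map_add' := map_add i
      map_smul' := fun r x => map_smul i (f.op r) x }
  let g' : X →ₗ[Rᵐᵒᵖ] M :=
    { toFun := g
      map_add' := map_add g
      map_smul' := fun r x => map_smul g (f.op r) x }
  obtain ⟨h, hh⟩ := hinj.out i' hi g'
  refine ⟨{ toFun := h, map_add' := map_add h, map_smul' := ?_ }, hh⟩
  intro c y
  obtain ⟨r, rfl⟩ := hsop c
  exact map_smul h r y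

/-- A right primitive right V-ring spanned by fewer than continuum many elements over its centre
has small rank. -/
theorem smallRank_of_span {U : Type u} [Ring U] (hV : RightV U)
    (hU : ∃ (M : Type u) (_ : AddCommGroup M) (_ : Module Uᵐᵒᵖ M),
      IsSimpleModule Uᵐᵒᵖ M ∧ ∀ r : Uᵐᵒᵖ, (∀ m : M, r • m = 0) → r = 0)
    (T : Set U) (hT : #T < continuum) (hspan : Submodule.span (Subring.center U) T = ⊤) :
    SmallRank U := by
  classical
  obtain ⟨S, _, _, hS, hf⟩ := hU
  have hnt : Nontrivial S := hS.nontrivial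
  have hU1 : (1 : U) ≠ 0 := by
    intro h0
    obtain ⟨s, hs⟩ := exists_ne (0 : S)
    apply hs
    rw [← one_smul Uᵐᵒᵖ s]
    have : (1 : Uᵐᵒᵖ) = 0 := unop_injective h0
    rw [this, zero_smul]
  refine ⟨S, inferInstance, inferInstance, hS, hV S hS, hf, 1, hU1, fun d hd => ?_⟩
  -- the product is large
  have h1 : continuum.{u} ≤ #(ℕ → Set.range fun s : S => op d • s) := by
    have hex : ∃ s : S, op d • s ≠ 0 := by
      by_contra hcon
      push Not at hcon
      exact hd (op_injective (by simpa using hf _ hcon))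
    obtain ⟨s, hs⟩ := hex
    have h2 : (2 : Cardinal.{u}) ≤ #(Set.range fun s : S => op d • s) := by
      have : Nontrivial (Set.range fun s : S => op d • s) :=
        ⟨⟨⟨op d • s, ⟨s, rfl⟩⟩, ⟨op d • (0 : S), ⟨0, rfl⟩⟩, fun h =>
          hs ((congrArg Subtype.val h).trans (smul_zero _))⟩⟩
      exact Cardinal.two_le_iff_one_lt.mpr (Cardinal.one_lt_iff_nontrivial.mpr this)
    rw [mk_pi, prod_const, mk_nat, lift_aleph0, lift_uzero]
    calc continuum = 2 ^ ℵ₀ := (two_power_aleph0).symm
      _ ≤ _ := Cardinal.power_le_power_right h2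
  -- the rank is small
  refine lt_of_le_of_lt ?_ (hT.trans_le h1)
  obtain ⟨v, hv⟩ := exists_ne (0 : S)
  have htop : Submodule.span Uᵐᵒᵖ ({v} : Set S) = ⊤ :=
    (hS.eq_bot_or_eq_top _).resolve_left (by
      rw [Submodule.span_singleton_eq_bot]
      exact hv)
  have hgen : ∀ u : U, op u • v ∈
      Submodule.span (Module.End Uᵐᵒᵖ S) ((fun t : U => op t • v) '' T) := by
    intro u
    have hu : u ∈ Submodule.span (Subring.center U) T := by
      rw [hspan]
      trivial
    induction hu using Submodule.span_induction with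
    | mem x hx => exact Submodule.subset_span ⟨x, hx, rfl⟩
    | zero => simp
    | add x y _ _ hx hy =>
      rw [op_add, add_smul]
      exact Submodule.add_mem _ hx hy
    | smul z x _ hx =>
      let k : Module.End Uᵐᵒᵖ S :=
        { toFun := fun s => op (z : U) • s
          map_add' := smul_add _
          map_smul' := by
            intro c s
            change op (z : U) • c • s = c • op (z : U) • s
            rw [smul_smul, smul_smul]
            congr 1
            apply unop_injective
            change c.unop * (z : U) = (z : U) * c.unop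
            exact (Subring.mem_center_iff.mp z.2 c.unop) }
      have e : op (z • x) • v = k • (op x • v) := by
        change op ((z : U) * x) • v = op (z : U) • op x • v
        rw [smul_smul, ← Subring.mem_center_iff.mp z.2 x]
        rfl
      rw [e]
      exact Submodule.smul_mem _ _ hx
  have hle : Submodule.span (Module.End Uᵐᵒᵖ S) (Set.range fun s : S => op (1 : U) • s) ≤
      Submodule.span (Module.End Uᵐᵒᵖ S) ((fun t : U => op t • v) '' T) := by
    refine Submodule.span_le.mpr ?_
    rintro _ ⟨s, rfl⟩
    have hs : s ∈ Submodule.span Uᵐᵒᵖ ({v} : Set S) := by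
      rw [htop]
      trivial
    obtain ⟨c, rfl⟩ := Submodule.mem_span_singleton.mp hs
    change op (1 : U) • (c • v) ∈ _
    rw [op_one, one_smul]
    exact hgen c.unop
  exact (Submodule.rank_mono hle).trans ((rank_span_le _).trans mk_image_le)

end Pool.Agent.VRing6
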